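import Mathlib
import Pool.Agent.H80.AJ.Cover
import Pool.Agent.H80.AJ.Distort

/-!
# Module Far (THEOREM P, step (S2)): the far sum

`g i`, `i ∈ ι`: injective holomorphic functions on `ball c ρ` with values in a bounded set (all inverse branches of all iterates of a
rational map), `A ⊆ ball c (ρ / 64)` a measurable set of positive area such that the sets `g i '' A` are pairwise disjoint (a wandering set). Then
`∑ ‖(g i)'(c)‖ ^ 2` is bounded, and so is `∑ ‖(g i)'(c)‖ ^ 2 / ‖x - g i c‖` over the `i` with `x ∉ g i '' ball c (ρ / 64)`, uniformly in `x`.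

PROOF. Distortion (`distort`, H80/AJ): `volume (g i '' A) ≥ (‖(g i)'(c)‖ / KK) ^ 2 * volume A`. If `x ∉ g i '' ball c (ρ / 64)` then `‖x - g i c‖ ≥ (ρ / 64) ‖(g i)'(c)‖ / 16` (`univ_cover`), and `‖z - g i c‖ ≤ KK ‖(g i)'(c)‖ ρ / 64` for `z ∈ g i '' A` (`distort_lip`), so
`‖x - z‖ ≤ (1 + 16 KK) ‖x - g i c‖`. So `‖(g i)'(c)‖ ^ 2 / ‖x - g i c‖ * volume A ≤ KK ^ 2 (1 + 16 KK) ∫_(g i '' A) dz / ‖x - z‖`, and the sum is at most the integral over the ball of radius `R0`.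
-/

set_option autoImplicit false

open MeasureTheory Metric Set Filter Topology

namespace Pool.Agent.H31.CP

open Pool.Agent.H80.AJ

private theorem far_ker_zero {δ : ℝ} (hδ : 0 < δ) :
    ∫⁻ x in ball (0 : ℂ) δ, ENNReal.ofReal (‖x‖⁻¹) ≤ ENNReal.ofReal (2 * Real.pi * δ) := by
  rw [← lintegral_indicator measurableSet_ball, ← Complex.lintegral_comp_polarCoord_symm]
  have h1 : (∫⁻ q in polarCoord.target, ENNReal.ofReal q.1 •
      (ball (0 : ℂ) δ).indicator (fun x => ENNReal.ofReal (‖x‖⁻¹)) (Complex.polarCoord.symm q)) ≤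
      ∫⁻ q in polarCoord.target, (Iio δ ×ˢ (univ : Set ℝ)).indicator 1 q := by
    refine setLIntegral_mono' polarCoord.open_target.measurableSet fun q hq => ?_
    have hq1 : 0 < q.1 := hq.1
    by_cases h : q.1 < δ
    · have hm : q ∈ Iio δ ×ˢ (univ : Set ℝ) := ⟨h, mem_univ _⟩
      have hb : Complex.polarCoord.symm q ∈ ball (0 : ℂ) δ := by
        rw [mem_ball_zero_iff, Complex.norm_polarCoord_symm, abs_of_pos hq1]
        exact h
      rw [indicator_of_mem hm, indicator_of_mem hb, Complex.norm_polarCoord_symm, abs_of_pos hq1,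
        smul_eq_mul, ← ENNReal.ofReal_mul hq1.le, mul_inv_cancel₀ hq1.ne', ENNReal.ofReal_one]
      exact le_refl _
    · have hb : Complex.polarCoord.symm q ∉ ball (0 : ℂ) δ := by
        rw [mem_ball_zero_iff, Complex.norm_polarCoord_symm, abs_of_pos hq1]
        exact h
      rw [indicator_of_notMem hb, smul_zero]
      exact bot_le
  have hms : MeasurableSet (Iio δ ×ˢ (univ : Set ℝ)) := measurableSet_Iio.prod MeasurableSet.univ
  rw [lintegral_indicator_one hms, Measure.restrict_apply hms] at h1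
  refine (h1.trans (measure_mono (t := Ioo (0 : ℝ) δ ×ˢ Ioo (-Real.pi) Real.pi) ?_)).trans ?_
  · rintro q ⟨h2, h3⟩
    exact ⟨⟨h3.1, h2.1⟩, h3.2⟩
  · rw [Measure.volume_eq_prod, Measure.prod_prod, Real.volume_Ioo, Real.volume_Ioo,
      ← ENNReal.ofReal_mul (by linarith)]
    apply le_of_eq
    congr 1
    ring

/-- the logarithmic kernel: `∫ dz / ‖x - p‖` over a ball -/
theorem far_ker (c p : ℂ) {δ : ℝ} (hδ : 0 < δ) :
    ∫⁻ x in ball c δ, ENNReal.ofReal (‖x - p‖⁻¹) ≤ ENNReal.ofReal (3 * Real.pi * δ) := by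
  have h1 : ∀ x : ℂ, ENNReal.ofReal (‖x - p‖⁻¹) ≤
      (ball (0 : ℂ) δ).indicator (fun x => ENNReal.ofReal (‖x‖⁻¹)) (x - p) +
        ENNReal.ofReal δ⁻¹ := by
    intro x
    by_cases h : x - p ∈ ball (0 : ℂ) δ
    · rw [indicator_of_mem h]
      exact le_self_add
    · rw [indicator_of_notMem h, zero_add]
      rw [mem_ball_zero_iff, not_lt] at h
      exact ENNReal.ofReal_le_ofReal (inv_anti₀ hδ h)
  calc ∫⁻ x in ball c δ, ENNReal.ofReal (‖x - p‖⁻¹)
      ≤ ∫⁻ x in ball c δ, ((ball (0 : ℂ) δ).indicator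
          (fun x => ENNReal.ofReal (‖x‖⁻¹)) (x - p) + ENNReal.ofReal δ⁻¹) :=
        lintegral_mono fun x => h1 x
    _ = (∫⁻ x in ball c δ, (ball (0 : ℂ) δ).indicator
          (fun x => ENNReal.ofReal (‖x‖⁻¹)) (x - p)) + ∫⁻ x in ball c δ, ENNReal.ofReal δ⁻¹ :=
        lintegral_add_right _ measurable_const
    _ ≤ (∫⁻ x, (ball (0 : ℂ) δ).indicator
          (fun x => ENNReal.ofReal (‖x‖⁻¹)) (x - p)) + ENNReal.ofReal (Real.pi * δ) := by
        refine add_le_add (setLIntegral_le_lintegral _ _) ?_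
        rw [setLIntegral_const, Complex.volume_ball]
        have h2 : ((NNReal.pi : NNReal) : ENNReal) = ENNReal.ofReal Real.pi := by
          rw [← NNReal.coe_real_pi, ENNReal.ofReal_coe_nnreal]
        rw [h2, ← ENNReal.ofReal_pow hδ.le, ← ENNReal.ofReal_mul (by positivity),
          ← ENNReal.ofReal_mul (by positivity)]
        apply le_of_eq
        congr 1
        field_simp
    _ = (∫⁻ x in ball (0 : ℂ) δ, ENNReal.ofReal (‖x‖⁻¹)) + ENNReal.ofReal (Real.pi * δ) := by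
        congr 1
        rw [lintegral_sub_right_eq_self
          (fun x => (ball (0 : ℂ) δ).indicator (fun x => ENNReal.ofReal (‖x‖⁻¹)) x) p,
          lintegral_indicator measurableSet_ball]
    _ ≤ ENNReal.ofReal (2 * Real.pi * δ) + ENNReal.ofReal (Real.pi * δ) :=
        add_le_add (far_ker_zero hδ) le_rfl
    _ = ENNReal.ofReal (3 * Real.pi * δ) := by
        rw [← ENNReal.ofReal_add (by positivity) (by positivity)]
        congr 1
        ring

private theorem far_det (b : ℂ) :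
    |((ContinuousLinearMap.smulRight (1 : ℂ →L[ℂ] ℂ) b).restrictScalars ℝ).det| = ‖b‖ ^ 2 := by
  have h1 : ((ContinuousLinearMap.smulRight (1 : ℂ →L[ℂ] ℂ) b).restrictScalars ℝ).det =
      LinearMap.det (((ContinuousLinearMap.smulRight (1 : ℂ →L[ℂ] ℂ) b) :
        ℂ →ₗ[ℂ] ℂ).restrictScalars ℝ) := rfl
  rw [h1, LinearMap.det_restrictScalars, Algebra.norm_complex_eq]
  show |Complex.normSq _| = _
  rw [Complex.normSq_eq_norm_sq, abs_of_nonneg (by positivity)]
  congr 2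
  simp

/-- the area of the image of `A` -/
theorem far_area {g : ℂ → ℂ} {c : ℂ} {ρ : ℝ} (hρ : 0 < ρ) (hg : DifferentiableOn ℂ g (ball c ρ))
    (hi : InjOn g (ball c ρ)) {A : Set ℂ} (hA : MeasurableSet A) (hAD : A ⊆ ball c (ρ / 64)) :
    ENNReal.ofReal ((‖deriv g c‖ / KK) ^ 2) * volume A ≤ volume (g '' A) := by
  have hK := KK_pos
  have hsub : ball c (ρ / 64) ⊆ ball c ρ := ball_subset_ball (by linarith)
  have hsub2 : ball c (ρ / 64) ⊆ closedBall c (ρ / 2) :=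
    (ball_subset_ball (by linarith)).trans ball_subset_closedBall
  have hder : ∀ w ∈ A, HasFDerivWithinAt g
      ((ContinuousLinearMap.smulRight (1 : ℂ →L[ℂ] ℂ) (deriv g w)).restrictScalars ℝ) A w := by
    intro w hw
    have h1 := (hg.differentiableAt (isOpen_ball.mem_nhds (hsub (hAD hw)))).hasDerivAt
    exact (h1.hasFDerivAt.restrictScalars ℝ).hasFDerivWithinAt
  rw [← lintegral_abs_det_fderiv_eq_addHaar_image volume hA hder (hi.mono (hAD.trans hsub))]
  rw [← setLIntegral_const]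
  refine setLIntegral_mono' hA fun w hw => ENNReal.ofReal_le_ofReal ?_
  rw [far_det]
  have h2 : ‖deriv g c‖ ≤ KK * ‖deriv g w‖ :=
    distort hρ hg hi (mem_closedBall_self (by positivity)) (hsub2 (hAD hw))
  have h3 : ‖deriv g c‖ / KK ≤ ‖deriv g w‖ := by
    rw [div_le_iff₀ hK, mul_comm]
    exact h2
  exact pow_le_pow_left₀ (by positivity) h3 2

/-- one branch -/
theorem far_one {g : ℂ → ℂ} {c : ℂ} {ρ : ℝ} (hρ : 0 < ρ) (hg : DifferentiableOn ℂ g (ball c ρ))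
    (hi : InjOn g (ball c ρ)) {A : Set ℂ} (hA : MeasurableSet A) (hAD : A ⊆ ball c (ρ / 64))
    {x : ℂ} (hx : x ∉ g '' ball c (ρ / 64)) :
    ENNReal.ofReal (‖deriv g c‖ ^ 2 / ‖x - g c‖) * volume A ≤
      ENNReal.ofReal (KK ^ 2 * (1 + 16 * KK)) *
        ∫⁻ z in g '' A, ENNReal.ofReal (‖z - x‖⁻¹) := by
  have hK := KK_pos
  have hsub : ball c (ρ / 64) ⊆ ball c ρ := ball_subset_ball (by linarith)
  have hsub2 : ball c (ρ / 64) ⊆ closedBall c (ρ / 2) :=
    (ball_subset_ball (by linarith)).trans ball_subset_closedBall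
  have h0 : 0 < ‖deriv g c‖ := deriv_ne hρ hg hi (mem_closedBall_self (by positivity))
  have h1 : ρ / 64 * ‖deriv g c‖ / 16 ≤ ‖x - g c‖ := by
    have h2 := univ_cover (by positivity : 0 < ρ / 64) (hg.mono hsub) (hi.mono hsub)
    have h3 : x ∉ ball (g c) (ρ / 64 * ‖deriv g c‖ / 16) := fun h => hx (h2 h)
    rwa [mem_ball, not_lt, dist_eq_norm] at h3
  have h2 : 0 < ‖x - g c‖ := lt_of_lt_of_le (by positivity) h1
  have h3 : ∀ z ∈ g '' A, KK ^ 2 / ‖x - g c‖ ≤ KK ^ 2 * (1 + 16 * KK) * ‖z - x‖⁻¹ := by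
    rintro z ⟨w, hw, rfl⟩
    have h4 : g w ≠ x := fun h => hx ⟨w, hAD hw, h⟩
    have h5 : 0 < ‖g w - x‖ := norm_pos_iff.2 (sub_ne_zero.2 h4)
    have h6 : ‖g w - g c‖ ≤ KK * ‖deriv g c‖ * ‖w - c‖ :=
      distort_lip hρ hg hi (hsub2 (hAD hw)) (mem_closedBall_self (by positivity))
        (mem_closedBall_self (by positivity))
    have h7 : ‖w - c‖ ≤ ρ / 64 := by
      have := hAD hw
      rw [mem_ball, dist_eq_norm] at this
      exact this.le
    have h8 : ‖g w - g c‖ ≤ 16 * KK * ‖x - g c‖ := by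
      calc ‖g w - g c‖ ≤ KK * ‖deriv g c‖ * ‖w - c‖ := h6
        _ ≤ KK * ‖deriv g c‖ * (ρ / 64) := by gcongr
        _ = 16 * KK * (ρ / 64 * ‖deriv g c‖ / 16) := by ring
        _ ≤ 16 * KK * ‖x - g c‖ := by gcongr
    have h9 : ‖g w - x‖ ≤ (1 + 16 * KK) * ‖x - g c‖ := by
      calc ‖g w - x‖ = ‖(g w - g c) - (x - g c)‖ := by rw [sub_sub_sub_cancel_right]
        _ ≤ ‖g w - g c‖ + ‖x - g c‖ := norm_sub_le _ _
        _ ≤ 16 * KK * ‖x - g c‖ + ‖x - g c‖ := by gcongr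
        _ = (1 + 16 * KK) * ‖x - g c‖ := by ring
    rw [← div_eq_mul_inv, div_le_div_iff₀ h2 h5]
    calc KK ^ 2 * ‖g w - x‖ ≤ KK ^ 2 * ((1 + 16 * KK) * ‖x - g c‖) := by gcongr
      _ = KK ^ 2 * (1 + 16 * KK) * ‖x - g c‖ := by ring
  have hgA : MeasurableSet (g '' A) :=
    hA.image_of_continuousOn_injOn (hg.continuousOn.mono (hAD.trans hsub))
      (hi.mono (hAD.trans hsub))
  calc ENNReal.ofReal (‖deriv g c‖ ^ 2 / ‖x - g c‖) * volume A
      = ENNReal.ofReal (KK ^ 2 / ‖x - g c‖) *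
          (ENNReal.ofReal ((‖deriv g c‖ / KK) ^ 2) * volume A) := by
        rw [← mul_assoc, ← ENNReal.ofReal_mul (by positivity)]
        congr 2
        field_simp
    _ ≤ ENNReal.ofReal (KK ^ 2 / ‖x - g c‖) * volume (g '' A) := by
        gcongr
        exact far_area hρ hg hi hA hAD
    _ = ∫⁻ _ in g '' A, ENNReal.ofReal (KK ^ 2 / ‖x - g c‖) := (setLIntegral_const _ _).symm
    _ ≤ ∫⁻ z in g '' A, ENNReal.ofReal (KK ^ 2 * (1 + 16 * KK) * ‖z - x‖⁻¹) :=
        setLIntegral_mono' hgA fun z hz => ENNReal.ofReal_le_ofReal (h3 z hz)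
    _ = ENNReal.ofReal (KK ^ 2 * (1 + 16 * KK)) *
          ∫⁻ z in g '' A, ENNReal.ofReal (‖z - x‖⁻¹) := by
        rw [← lintegral_const_mul]
        · refine lintegral_congr fun z => ?_
          rw [← ENNReal.ofReal_mul (by positivity)]
        · fun_prop

/-- the far sum -/
theorem far {ι : Type*} {ρ : ℝ} (hρ : 0 < ρ) {c : ℂ} {g : ι → ℂ → ℂ}
    (hg : ∀ i, DifferentiableOn ℂ (g i) (ball c ρ)) (hi : ∀ i, InjOn (g i) (ball c ρ))
    {R0 : ℝ} (hR : ∀ i, g i '' ball c ρ ⊆ ball 0 R0)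
    {A : Set ℂ} (hA : MeasurableSet A) (hA0 : volume A ≠ 0) (hAD : A ⊆ ball c (ρ / 64))
    (hdis : ∀ i j, i ≠ j → Disjoint (g i '' A) (g j '' A)) :
    ∃ C0 : ℝ, (∀ S : Finset ι, ∑ i ∈ S, ‖deriv (g i) c‖ ^ 2 ≤ C0) ∧
      ∀ (x : ℂ) (S : Finset ι), (∀ i ∈ S, x ∉ g i '' ball c (ρ / 64)) →
        ∑ i ∈ S, ‖deriv (g i) c‖ ^ 2 / ‖x - g i c‖ ≤ C0 := by
  have hK := KK_pos
  have hsub : ball c (ρ / 64) ⊆ ball c ρ := ball_subset_ball (by linarith)
  obtain ⟨R1, hR1⟩ : ∃ R1 : ℝ, R1 = |R0| + 1 := ⟨_, rfl⟩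
  have hR1p : 0 < R1 := by rw [hR1]; positivity
  have hR2 : ∀ i, g i '' A ⊆ ball 0 R1 := fun i =>
    ((image_mono (hAD.trans hsub)).trans (hR i)).trans
      (ball_subset_ball (by rw [hR1]; linarith [le_abs_self R0]))
  have hAf : volume A ≠ ⊤ := ((measure_mono hAD).trans_lt measure_ball_lt_top).ne
  obtain ⟨V, hV⟩ : ∃ V : ℝ, V = (volume A).toReal := ⟨_, rfl⟩
  have hVp : 0 < V := by rw [hV]; exact ENNReal.toReal_pos hA0 hAf
  have hVA : volume A = ENNReal.ofReal V := by rw [hV, ENNReal.ofReal_toReal hAf]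
  have hgA : ∀ i, MeasurableSet (g i '' A) := fun i =>
    hA.image_of_continuousOn_injOn ((hg i).continuousOn.mono (hAD.trans hsub))
      ((hi i).mono (hAD.trans hsub))
  have hpd : ∀ S : Finset ι, (S : Set ι).PairwiseDisjoint fun i => g i '' A :=
    fun S i _ j _ hij => hdis i j hij
  have hun : ∀ S : Finset ι, (⋃ i ∈ S, g i '' A) ⊆ ball 0 R1 := fun S =>
    iUnion₂_subset fun i _ => hR2 i
  -- the sum of the squares
  have hs1 : ∀ S : Finset ι, ∑ i ∈ S, ‖deriv (g i) c‖ ^ 2 ≤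
      KK ^ 2 * (Real.pi * R1 ^ 2) / V := by
    intro S
    have h1 : ∑ i ∈ S, ENNReal.ofReal ((‖deriv (g i) c‖ / KK) ^ 2) * volume A ≤
        volume (ball (0 : ℂ) R1) := by
      calc ∑ i ∈ S, ENNReal.ofReal ((‖deriv (g i) c‖ / KK) ^ 2) * volume A
          ≤ ∑ i ∈ S, volume (g i '' A) :=
            Finset.sum_le_sum fun i _ => far_area hρ (hg i) (hi i) hA hAD
        _ = volume (⋃ i ∈ S, g i '' A) :=
            (measure_biUnion_finset (hpd S) fun i _ => hgA i).symm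
        _ ≤ volume (ball (0 : ℂ) R1) := measure_mono (hun S)
    rw [← Finset.sum_mul, ← ENNReal.ofReal_sum_of_nonneg (fun i _ => by positivity), hVA,
      ← ENNReal.ofReal_mul (Finset.sum_nonneg fun i _ => by positivity), Complex.volume_ball] at h1
    have h2 : ((NNReal.pi : NNReal) : ENNReal) = ENNReal.ofReal Real.pi := by
      rw [← NNReal.coe_real_pi, ENNReal.ofReal_coe_nnreal]
    rw [h2, ← ENNReal.ofReal_pow hR1p.le, ← ENNReal.ofReal_mul (by positivity),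
      ENNReal.ofReal_le_ofReal_iff (by positivity)] at h1
    have h3 : ∑ i ∈ S, (‖deriv (g i) c‖ / KK) ^ 2 = (∑ i ∈ S, ‖deriv (g i) c‖ ^ 2) / KK ^ 2 := by
      rw [Finset.sum_div]
      exact Finset.sum_congr rfl fun i _ => by rw [div_pow]
    rw [h3, div_mul_eq_mul_div, div_le_iff₀ (by positivity)] at h1
    rw [le_div_iff₀ hVp]
    calc (∑ i ∈ S, ‖deriv (g i) c‖ ^ 2) * V ≤ R1 ^ 2 * Real.pi * KK ^ 2 := h1
      _ = KK ^ 2 * (Real.pi * R1 ^ 2) := by ring
  -- the far sum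
  have hs2 : ∀ (x : ℂ) (S : Finset ι), (∀ i ∈ S, x ∉ g i '' ball c (ρ / 64)) →
      ∑ i ∈ S, ‖deriv (g i) c‖ ^ 2 / ‖x - g i c‖ ≤
        KK ^ 2 * (1 + 16 * KK) * (3 * Real.pi * R1) / V := by
    intro x S hx
    have h1 : ∑ i ∈ S, ENNReal.ofReal (‖deriv (g i) c‖ ^ 2 / ‖x - g i c‖) * volume A ≤
        ENNReal.ofReal (KK ^ 2 * (1 + 16 * KK)) * ENNReal.ofReal (3 * Real.pi * R1) := by
      calc ∑ i ∈ S, ENNReal.ofReal (‖deriv (g i) c‖ ^ 2 / ‖x - g i c‖) * volume A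
          ≤ ∑ i ∈ S, ENNReal.ofReal (KK ^ 2 * (1 + 16 * KK)) *
              ∫⁻ z in g i '' A, ENNReal.ofReal (‖z - x‖⁻¹) :=
            Finset.sum_le_sum fun i hiS => far_one hρ (hg i) (hi i) hA hAD (hx i hiS)
        _ = ENNReal.ofReal (KK ^ 2 * (1 + 16 * KK)) *
              ∫⁻ z in ⋃ i ∈ S, g i '' A, ENNReal.ofReal (‖z - x‖⁻¹) := by
            rw [← Finset.mul_sum, lintegral_biUnion_finset (hpd S) (fun i _ => hgA i)]
        _ ≤ ENNReal.ofReal (KK ^ 2 * (1 + 16 * KK)) *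
              ∫⁻ z in ball (0 : ℂ) R1, ENNReal.ofReal (‖z - x‖⁻¹) := by
            gcongr
            exact hun S
        _ ≤ ENNReal.ofReal (KK ^ 2 * (1 + 16 * KK)) * ENNReal.ofReal (3 * Real.pi * R1) := by
            gcongr
            exact far_ker 0 x hR1p
    rw [← Finset.sum_mul, ← ENNReal.ofReal_sum_of_nonneg (fun i _ => by positivity), hVA,
      ← ENNReal.ofReal_mul (Finset.sum_nonneg fun i _ => by positivity),
      ← ENNReal.ofReal_mul (by positivity), ENNReal.ofReal_le_ofReal_iff (by positivity)] at h1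
    rw [le_div_iff₀ hVp]
    exact h1
  refine ⟨max (KK ^ 2 * (Real.pi * R1 ^ 2) / V) (KK ^ 2 * (1 + 16 * KK) * (3 * Real.pi * R1) / V),
    fun S => (hs1 S).trans (le_max_left _ _), fun x S hx => (hs2 x S hx).trans (le_max_right _ _)⟩

end Pool.Agent.H31.CP
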