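import Mathlib
import Pool.Agent.H32.BT.Dense
import Pool.Agent.H32.BT.Stable
import Pool.Agent.H32.BT.NotAtt

/-!
# Module Wan (THEOREM P, step (S1)): a wandering ball

`avoid_nhds`: near an attracted point which is not periodic all iterates stay away from the point. `wan`: a wandering ball at an
attracted point `z1` of the plane which is not periodic: no iterate maps a point of the ball into the ball. `wan_disj`: the sets `G '' A`, `G' '' A` (`A` in the wandering ball, `G, G'` inverse branches of iterates of different orders) are disjoint.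

PROOF. The sink cycle of `z1` does not contain `z1`; a neighbourhood of `z1` is mapped by all late iterates into small neighbourhoods of the cycle (`sink_stable`); the finitely many early iterates do not fix `z1`: continuity, Hausdorff.
-/

set_option autoImplicit false

open Filter Topology Polynomial OnePoint Metric Set

namespace Pool.Agent.H31.CP

open Pool.Agent.H44.Fatou Pool.Agent.H32.BT

/-- late iterates near `u` avoid a neighbourhood of `w`, a point not in the cycle -/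
theorem avoid_late {f : OnePoint ℂ → OnePoint ℂ} (hf : Continuous f)
    (hst : ∀ (z : OnePoint ℂ) (n : ℕ), IsSink f z n → ∀ N ∈ 𝓝 z, ∃ V ∈ 𝓝 z, ∀ w ∈ V, ∀ k : ℕ,
      f^[n * k] w ∈ N)
    {z : OnePoint ℂ} {n : ℕ} (hs : IsSink f z n) {u w : OnePoint ℂ}
    (hu : Tendsto (fun k : ℕ => f^[n * k] u) atTop (𝓝 z)) (hw : ∀ i < n, w ≠ f^[i] z) :
    ∃ Y ∈ 𝓝 u, ∃ W ∈ 𝓝 w, ∃ m0 : ℕ, ∀ m ≥ m0, ∀ y ∈ Y, f^[m] y ∉ W := by
  have h1 : ∀ i : ℕ, ∃ V ∈ 𝓝 (f^[i] z), ∃ W ∈ 𝓝 w, i < n → ∀ v ∈ V, ∀ k : ℕ,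
      f^[n * k] v ∉ W := by
    intro i
    by_cases hi : i < n
    · obtain ⟨N, W, hN1, hW1, hd⟩ := t2_separation_nhds (hw i hi).symm
      obtain ⟨V, hV, hV2⟩ := hst (f^[i] z) n (isSink_iterate hf hs i) N hN1
      exact ⟨V, hV, W, hW1, fun _ v hv k hk => Set.disjoint_left.1 hd (hV2 v hv k) hk⟩
    · exact ⟨univ, univ_mem, univ, univ_mem, fun h => absurd h hi⟩
  choose V hV W hW hV2 using h1
  have h2 : ∀ᶠ k : ℕ in atTop, ∀ i ∈ Finset.range n, f^[i] (f^[n * k] u) ∈ interior (V i) := by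
    rw [Filter.eventually_all_finset]
    intro i _
    exact (((hf.iterate i).tendsto z).comp hu).eventually (interior_mem_nhds.2 (hV i))
  obtain ⟨k0, hk0⟩ := h2.exists
  have h3 : ∀ᶠ y in 𝓝 u, ∀ i ∈ Finset.range n, f^[i] (f^[n * k0] y) ∈ interior (V i) := by
    rw [Filter.eventually_all_finset]
    intro i hi
    have hc : Continuous fun y => f^[i] (f^[n * k0] y) := (hf.iterate i).comp (hf.iterate (n * k0))
    exact hc.continuousAt.eventually (isOpen_interior.mem_nhds (hk0 i hi))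
  refine ⟨_, h3, ⋂ i ∈ Finset.range n, W i, ?_, n * k0, fun m hm y hy hmem => ?_⟩
  · rw [Filter.biInter_finset_mem]
    exact fun i _ => hW i
  obtain ⟨t, rfl⟩ := Nat.exists_eq_add_of_le hm
  have hn : 0 < n := hs.1
  have hi : t % n < n := Nat.mod_lt t hn
  have h4 := hV2 (t % n) hi _ (interior_subset (hy (t % n) (Finset.mem_range.2 hi))) (t / n)
  rw [← Function.iterate_add_apply, ← Function.iterate_add_apply] at h4
  have h5 : n * (t / n) + t % n + n * k0 = n * k0 + t := by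
    rw [Nat.div_add_mod, add_comm]
  rw [h5] at h4
  simp only [mem_iInter] at hmem
  exact h4 (hmem (t % n) (Finset.mem_range.2 hi))

/-- an attracted point which is not periodic has a wandering neighbourhood -/
theorem avoid_nhds {P Q : Polynomial ℂ} (h : IsCoprime P Q) (hd : 1 ≤ max P.natDegree Q.natDegree)
    (hK : ∃ x, ¬ Att (rat P Q) x) {x : OnePoint ℂ} (ha : Att (rat P Q) x)
    (hnp : ∀ n, 0 < n → (rat P Q)^[n] x ≠ x) :
    ∃ W ∈ 𝓝 x, ∀ n, 0 < n → ∀ y ∈ W, (rat P Q)^[n] y ∉ W := by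
  have hf : Continuous (rat P Q) := rat_continuous h
  obtain ⟨z, n, hs, hu⟩ := ha
  have hw : ∀ i < n, x ≠ (rat P Q)^[i] z := by
    intro i _ hx
    apply hnp n hs.1
    rw [hx, ← Function.iterate_add_apply, add_comm, Function.iterate_add_apply, hs.2.1]
  obtain ⟨Y, hY, W, hW, m0, hm0⟩ :=
    avoid_late hf (fun z n hs => sink_stable h hd hK hs) hs hu hw
  have h1 : ∀ m : ℕ, ∃ U ∈ 𝓝 x, 0 < m → ∀ y ∈ U, (rat P Q)^[m] y ∉ U := by
    intro m
    by_cases hm : 0 < m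
    · obtain ⟨N, N', hN, hN', hd'⟩ := t2_separation_nhds (hnp m hm)
      refine ⟨(rat P Q)^[m] ⁻¹' N ∩ N', inter_mem
        ((hf.iterate m).continuousAt.preimage_mem_nhds hN) hN', fun _ y hy hy2 => ?_⟩
      exact Set.disjoint_left.1 hd' hy.1 hy2.2
    · exact ⟨univ, univ_mem, fun h => absurd h hm⟩
  choose U hU hU2 using h1
  refine ⟨Y ∩ W ∩ ⋂ m ∈ Finset.range m0, U m, inter_mem (inter_mem hY hW) ?_, ?_⟩
  · rw [Filter.biInter_finset_mem]
    exact fun m _ => hU m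
  · rintro m hm y ⟨⟨hy1, -⟩, hy3⟩ ⟨⟨-, hy5⟩, hy6⟩
    by_cases hmm : m0 ≤ m
    · exact hm0 m hmm y hy1 hy5
    · simp only [mem_iInter] at hy3 hy6
      have hr : m ∈ Finset.range m0 := Finset.mem_range.2 (not_le.1 hmm)
      exact hU2 m hm y (hy3 m hr) (hy6 m hr)

/-- a wandering ball in the plane -/
theorem wan {P Q : Polynomial ℂ} (h : IsCoprime P Q) (hd : 1 ≤ max P.natDegree Q.natDegree)
    (hK : ∃ x, ¬ Att (rat P Q) x) {z1 : ℂ} (ha : Att (rat P Q) z1)
    (hnp : ∀ n, 0 < n → (rat P Q)^[n] (z1 : OnePoint ℂ) ≠ z1) :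
    ∃ r : ℝ, 0 < r ∧ ∀ n, 0 < n → ∀ w ∈ ball z1 r, ∀ u ∈ ball z1 r,
      (rat P Q)^[n] (w : OnePoint ℂ) ≠ (u : OnePoint ℂ) := by
  obtain ⟨W, hW, h1⟩ := avoid_nhds h hd hK ha hnp
  have h2 : ((↑) : ℂ → OnePoint ℂ) ⁻¹' W ∈ 𝓝 z1 :=
    continuous_coe.continuousAt.preimage_mem_nhds hW
  obtain ⟨r, hr, h3⟩ := Metric.mem_nhds_iff.1 h2
  refine ⟨r, hr, fun n hn w hw u hu he => h1 n hn w (h3 hw) ?_⟩
  rw [he]
  exact h3 hu

/-- inverse branches of different orders have disjoint images of a wandering set -/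
theorem wan_disj {f : OnePoint ℂ → OnePoint ℂ} {A : Set ℂ}
    (hw : ∀ n, 0 < n → ∀ w ∈ A, ∀ u ∈ A, f^[n] (w : OnePoint ℂ) ≠ (u : OnePoint ℂ))
    {n m : ℕ} (hnm : n ≠ m) {G G' : ℂ → ℂ}
    (hG : ∀ w ∈ A, f^[n] (G w : OnePoint ℂ) = w) (hG' : ∀ w ∈ A, f^[m] (G' w : OnePoint ℂ) = w) :
    Disjoint (G '' A) (G' '' A) := by
  have key : ∀ (n m : ℕ) (G G' : ℂ → ℂ), n < m → (∀ w ∈ A, f^[n] (G w : OnePoint ℂ) = w) →
      (∀ w ∈ A, f^[m] (G' w : OnePoint ℂ) = w) → Disjoint (G '' A) (G' '' A) := by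
    intro n m G G' hlt hG hG'
    rw [Set.disjoint_left]
    rintro _ ⟨w, hw1, rfl⟩ ⟨u, hu1, he⟩
    have h1 := hG' u hu1
    rw [he, show m = (m - n) + n by omega, Function.iterate_add_apply, hG w hw1] at h1
    exact hw (m - n) (by omega) w hw1 u hu1 h1
  rcases lt_or_gt_of_ne hnm with hlt | hlt
  · exact key n m G G' hlt hG hG'
  · exact (key m n G' G hlt hG' hG).symm

end Pool.Agent.H31.CP
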